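import Pool.Agent.helper577_eps.Motz

/-!
Q1 asks for all pairs of positive integers `m, n` with `rad m = rad (n + 1)` and `rad n = rad (m + 1)`. We show that
the larger members of all such pairs form a sparse set: at most `100 X ^ (2/3) log X` integers `n ≤ X` are the larger
member `n > m` of a pair.

Proof. (1) Every prime divisor of `n (n + 1)` divides `m + n + 1`, so the squarefree parts `t₁, t₂` of `n = t₁ d₁ ^ 2`
and `n + 1 = t₂ d₂ ^ 2` satisfy `t₁ t₂ ≤ 2 n`.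
(2) If `t₁ t₂ ≤ A`, then `x = 2 n + 1` solves `x ^ 2 - 1 = t₁ t₂ (2 d₁ d₂) ^ 2`; the solutions at least double from one to
the next, which gives at most `A (log₂ (2 X + 1) + 1)` integers.
(3) If `t₁ t₂ > A`, then `d₁ d₂ ≤ 2 X / √A`, while `d₁ d₂ ≥ √(n / 2)` by (1); as `d₁, d₂` determine `n` modulo
`(d₁ d₂) ^ 2`, there are few such `n`. Take `A = X ^ (2/3)`.
-/

set_option autoImplicit false

namespace Pool.Agent.Results.MP_31e8d2_nt.LargerMemberSparse

/-- The product of the distinct primes dividing `x`. -/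
def rad (x : ℕ) : ℕ := ∏ p ∈ x.primeFactors, p

/-- **Theorem.** For every `X ≥ 2` at most `100 X ^ (2/3) log X` integers `n` with `1 ≤ n ≤ X` are such that for some
positive integer `m < n` one has `rad m = rad (n + 1)` and `rad n = rad (m + 1)`. -/
theorem result (X : ℕ) (hX : 2 ≤ X) :
    {n : ℕ | 1 ≤ n ∧ n ≤ X ∧ ∃ m : ℕ, 1 ≤ m ∧ m < n ∧ rad m = rad (n + 1) ∧ rad n = rad (m + 1)}.Finite ∧
    ({n : ℕ | 1 ≤ n ∧ n ≤ X ∧ ∃ m : ℕ, 1 ≤ m ∧ m < n ∧ rad m = rad (n + 1) ∧ rad n = rad (m + 1)}.ncard : ℝ) ≤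
      100 * (X : ℝ) ^ (2 / 3 : ℝ) * Real.log X := by
  have key : ∀ a b : ℕ, 1 ≤ a → 1 ≤ b → rad a = rad b → ∀ p : ℕ, p.Prime → (p ∣ a ↔ p ∣ b) := by
    intro a b ha hb h p hp
    have e1 : ∀ c : ℕ, 1 ≤ c → (p ∣ c ↔ p ∣ rad c) := by
      intro c hc
      unfold rad
      constructor
      · intro hpc
        exact Finset.dvd_prod_of_mem (fun p => p) (Nat.mem_primeFactors.2 ⟨hp, hpc, by omega⟩)
      · intro hpc
        exact hpc.trans (Nat.prod_primeFactors_dvd c)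
    rw [e1 a ha, e1 b hb, h]
  have hfin : {n : ℕ | 1 ≤ n ∧ n ≤ X ∧ ∃ m : ℕ, 1 ≤ m ∧ m < n ∧ rad m = rad (n + 1) ∧
      rad n = rad (m + 1)}.Finite := (Set.finite_Iic X).subset fun x hx => hx.2.1
  refine ⟨hfin, ?_⟩
  rw [Set.ncard_eq_toFinset_card _ hfin]
  refine Pool.Agent.Helper577Eps.motz_count X hX _ fun n hn => ?_
  rw [Set.Finite.mem_toFinset] at hn
  obtain ⟨hn1, hnX, m, hm, hmn, h1, h2⟩ := hn
  exact ⟨hnX, m, hm, hmn, key m (n + 1) hm (by omega) h1, key n (m + 1) hn1 (by omega) h2⟩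

end Pool.Agent.Results.MP_31e8d2_nt.LargerMemberSparse
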