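import Mathlib

set_option autoImplicit false

namespace Pool.Agent.Results.MP_31e8d2_nt.PrimePower

theorem plus_factor (z : ℕ) (hz : Odd z) (k : ℕ) :
    ∃ G, Odd G ∧ z ^ (2 * k + 1) + 1 = (z + 1) * G := by
  induction k with
  | zero => exact ⟨1, odd_one, by ring⟩
  | succ k ih =>
    obtain ⟨G, hG, h⟩ := ih
    obtain ⟨w, rfl⟩ := hz
    obtain ⟨g, rfl⟩ := hG
    refine ⟨2 * (4 * w ^ 2 * g + 4 * w * g + g + 2 * w ^ 2 + w) + 1, ⟨_, rfl⟩, ?_⟩
    have e : (2 * w + 1) ^ (2 * (k + 1) + 1) = (2 * w + 1) ^ 2 * (2 * w + 1) ^ (2 * k + 1) := by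
      ring
    rw [e]
    generalize (2 * w + 1) ^ (2 * k + 1) = A at h ⊢
    zify at h ⊢
    linear_combination (2 * (w : ℤ) + 1) ^ 2 * h

theorem minus_factor (w : ℕ) (k : ℕ) :
    ∃ G, Odd G ∧ (2 * w + 1) ^ (2 * k + 1) = 1 + (2 * w) * G := by
  induction k with
  | zero => exact ⟨1, odd_one, by ring⟩
  | succ k ih =>
    obtain ⟨G, hG, h⟩ := ih
    obtain ⟨g, rfl⟩ := hG
    refine ⟨(2 * w + 2) + (2 * w + 1) ^ 2 * (2 * g + 1), ?_, ?_⟩
    · refine ⟨w + 1 + (4 * w ^ 2 * g + 4 * w * g + g + 2 * w ^ 2 + 2 * w), ?_⟩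
      ring
    · have e : (2 * w + 1) ^ (2 * (k + 1) + 1) = (2 * w + 1) ^ 2 * (2 * w + 1) ^ (2 * k + 1) := by
        ring
      rw [e, h]
      ring

/-- minus case -/
theorem no_minus (y q : ℕ) (hy : 2 ≤ y) (hq : q.Prime) (hq2 : q ≠ 2)
    (h : ∀ r : ℕ, r.Prime → r ∣ y ^ q - 1 → r ∣ y - 1) : False := by
  have hqo : Odd q := hq.odd_of_ne_two hq2
  have hlt : 1 + q * (y - 1) < y ^ q := by
    obtain ⟨u, rfl⟩ : ∃ u, y = u + 1 := ⟨y - 1, by omega⟩
    obtain ⟨j, rfl⟩ : ∃ j, q = j + 2 := ⟨q - 2, by have := hq.two_le; omega⟩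
    simp only [Nat.add_sub_cancel]
    have hu : 1 ≤ u := by omega
    clear hqo hq hq2 h hy
    induction j with
    | zero =>
      have e : (u + 1) ^ (0 + 2) = u * u + 2 * u + 1 := by ring
      have := Nat.mul_le_mul hu hu
      rw [e]
      nlinarith
    | succ j ih =>
      have : (u + 1) ^ (j + 1 + 2) = (u + 1) * (u + 1) ^ (j + 2) := by ring
      have h1 : 1 ≤ (u + 1) ^ (j + 2) := Nat.one_le_pow _ _ (by omega)
      rw [this]
      generalize (u + 1) ^ (j + 2) = A at ih h1 ⊢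
      have h2 : u * 1 ≤ u * A := Nat.mul_le_mul_left _ h1
      nlinarith
  have hN : y ^ q - 1 ≠ 0 := by omega
  have hS : q * (y - 1) ≠ 0 := Nat.mul_ne_zero hq.ne_zero (by omega)
  have hdvd : y ^ q - 1 ∣ q * (y - 1) := by
    rw [← Nat.factorization_prime_le_iff_dvd hN hS]
    intro r hr
    rw [Nat.factorization_mul hq.ne_zero (by omega), Finsupp.add_apply]
    by_cases hrN : r ∣ y ^ q - 1
    · have hrS := h r hr hrN
      by_cases hr2 : r = 2
      · subst hr2
        obtain ⟨w, hw⟩ := hrS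
        have hy' : y = 2 * w + 1 := by omega
        obtain ⟨k, hk⟩ := hqo
        obtain ⟨G, hG, hGe⟩ := minus_factor w k
        have : y ^ q - 1 = (y - 1) * G := by
          rw [hy', hk, hGe]; simp
        have hG0 : G ≠ 0 := by rintro rfl; exact absurd hG (by decide)
        rw [this, Nat.factorization_mul (by omega) hG0, Finsupp.add_apply,
          Nat.factorization_eq_zero_of_not_dvd (n := G) (p := 2) (by
            intro hd; exact (Nat.not_even_iff_odd.2 hG) (even_iff_two_dvd.2 hd))]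
        omega
      · have : Fact r.Prime := ⟨hr⟩
        have hlte := padicValNat.pow_sub_pow (p := r) (hr.odd_of_ne_two hr2) (x := y) (y := 1)
          (by omega) hrS (by
            intro hd
            have : r ∣ y - (y - 1) := Nat.dvd_sub hd hrS
            have h1 : y - (y - 1) = 1 := by omega
            rw [h1] at this
            exact hr.one_lt.ne' (Nat.dvd_one.1 this)) hq.ne_zero
        rw [one_pow] at hlte
        rw [Nat.factorization_def _ hr, Nat.factorization_def _ hr, Nat.factorization_def _ hr,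
          hlte]
        omega
    · rw [Nat.factorization_eq_zero_of_not_dvd hrN]
      omega
  have := Nat.le_of_dvd (Nat.pos_of_ne_zero hS) hdvd
  omega

/-- plus case -/
theorem plus_case (z q : ℕ) (hz : 2 ≤ z) (hq : q.Prime) (hq2 : q ≠ 2)
    (h : ∀ r : ℕ, r.Prime → r ∣ z ^ q + 1 → r ∣ z + 1) : z = 2 ∧ q = 3 := by
  have hqo : Odd q := hq.odd_of_ne_two hq2
  have hS : q * (z + 1) ≠ 0 := Nat.mul_ne_zero hq.ne_zero (by omega)
  have hdvd : z ^ q + 1 ∣ q * (z + 1) := by
    rw [← Nat.factorization_prime_le_iff_dvd (by omega) hS]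
    intro r hr
    rw [Nat.factorization_mul hq.ne_zero (by omega), Finsupp.add_apply]
    by_cases hrN : r ∣ z ^ q + 1
    · have hrS := h r hr hrN
      by_cases hr2 : r = 2
      · subst hr2
        have hzo : Odd z := by
          obtain ⟨w, hw⟩ := hrS
          exact ⟨w - 1, by omega⟩
        obtain ⟨k, hk⟩ := hqo
        obtain ⟨G, hG, hGe⟩ := plus_factor z hzo k
        have hG0 : G ≠ 0 := by rintro rfl; exact absurd hG (by decide)
        rw [hk, hGe, Nat.factorization_mul (by omega) hG0, Finsupp.add_apply,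
          Nat.factorization_eq_zero_of_not_dvd (n := G) (p := 2) (by
            intro hd; exact (Nat.not_even_iff_odd.2 hG) (even_iff_two_dvd.2 hd))]
        omega
      · have : Fact r.Prime := ⟨hr⟩
        have hlte := padicValNat.pow_add_pow (p := r) (hr.odd_of_ne_two hr2) (x := z) (y := 1)
          hrS (by
            intro hd
            have : r ∣ (z + 1) - z := Nat.dvd_sub hrS hd
            have h1 : (z + 1) - z = 1 := by omega
            rw [h1] at this
            exact hr.one_lt.ne' (Nat.dvd_one.1 this)) hqo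
        rw [one_pow] at hlte
        rw [Nat.factorization_def _ hr, Nat.factorization_def _ hr, Nat.factorization_def _ hr,
          hlte]
        omega
    · rw [Nat.factorization_eq_zero_of_not_dvd hrN]
      omega
  have hle := Nat.le_of_dvd (Nat.pos_of_ne_zero hS) hdvd
  -- `z ^ q + 1 ≤ q * (z + 1)`
  have hq3 : 3 ≤ q := by
    have := hq.two_le
    omega
  by_contra hcon
  have key : ∀ j : ℕ, (j + 3) * (z + 1) ≤ z ^ (j + 3) + 1 ∧
      ((j ≠ 0 ∨ z ≠ 2) → (j + 3) * (z + 1) < z ^ (j + 3) + 1) := by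
    intro j
    induction j with
    | zero =>
      obtain ⟨t, rfl⟩ : ∃ t, z = t + 2 := ⟨z - 2, by omega⟩
      have e : (t + 2) ^ (0 + 3) + 1 = (0 + 3) * (t + 2 + 1) + t * (t + 3) ^ 2 := by ring
      rw [e]
      refine ⟨Nat.le_add_right _ _, fun hh => ?_⟩
      have ht : 0 < t := by omega
      exact Nat.lt_add_of_pos_right (by positivity)
    | succ j ih =>
      have e : z ^ (j + 1 + 3) = z * z ^ (j + 3) := by ring
      have h8 : 2 ^ 3 ≤ z ^ (j + 3) :=
        (Nat.pow_le_pow_left hz 3).trans (Nat.pow_le_pow_right (by omega) (by omega))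
      have : (j + 1 + 3) * (z + 1) < z ^ (j + 1 + 3) + 1 := by
        rw [e]
        nlinarith [ih.1]
      exact ⟨this.le, fun _ => this⟩
  obtain ⟨j, rfl⟩ : ∃ j, q = j + 3 := ⟨q - 3, by omega⟩
  have := (key j).2 (by
    by_contra hh
    rw [not_or, not_not, not_not] at hh
    exact hcon ⟨hh.2, by omega⟩)
  omega

theorem sq1 (x s : ℕ) (hx : 2 ≤ x) : x ^ 2 + 1 ≠ 2 ^ s := by
  intro h
  have h4 : 4 ≤ x ^ 2 := by nlinarith
  have hs : 2 ≤ s := by
    by_contra hs
    have : s = 0 ∨ s = 1 := by omega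
    rcases this with rfl | rfl <;> omega
  obtain ⟨t, rfl⟩ : ∃ t, s = t + 2 := ⟨s - 2, by omega⟩
  have e : 2 ^ (t + 2) = 4 * 2 ^ t := by ring
  rcases Nat.even_or_odd x with ⟨w, rfl⟩ | ⟨w, rfl⟩
  · have : (w + w) ^ 2 = 4 * (w * w) := by ring
    omega
  · have : (2 * w + 1) ^ 2 = 4 * (w * w + w) + 1 := by ring
    omega

theorem only2 (N : ℕ) (hN : N ≠ 0) (h : ∀ r : ℕ, r.Prime → r ∣ N → r = 2) : ∃ s, N = 2 ^ s :=
  ⟨_, Nat.eq_prime_pow_of_unique_prime_dvd hN (fun {d} hd hdn => h d hd hdn)⟩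

theorem pm (x : ℕ) (hx : 3 ≤ x) (h1 : ∀ r : ℕ, r.Prime → r ∣ x - 1 → r = 2)
    (h2 : ∀ r : ℕ, r.Prime → r ∣ x + 1 → r = 2) : x = 3 := by
  obtain ⟨t, ht⟩ := only2 (x - 1) (by omega) h1
  obtain ⟨s, hs⟩ := only2 (x + 1) (by omega) h2
  rcases t with _ | _ | t
  · rw [pow_zero] at ht; omega
  · rw [zero_add, pow_one] at ht; omega
  · rcases s with _ | _ | s
    · rw [pow_zero] at hs; omega
    · rw [zero_add, pow_one] at hs; omega
    · have e1 : 2 ^ (t + 1 + 1) = 4 * 2 ^ t := by ring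
      have e2 : 2 ^ (s + 1 + 1) = 4 * 2 ^ s := by ring
      omega

theorem odd_one_of (G N : ℕ) (hG : Odd G) (hd : G ∣ N) (h : ∀ r : ℕ, r.Prime → r ∣ N → r = 2) :
    G = 1 := by
  by_contra hG1
  obtain ⟨r, hr, hrG⟩ := Nat.exists_prime_and_dvd hG1
  have := h r hr (hrG.trans hd)
  subst this
  exact (Nat.not_even_iff_odd.2 hG) (even_iff_two_dvd.2 hrG)

theorem core (p a b : ℕ) (hp : p.Prime) (ha : 1 ≤ a) (hb : 1 ≤ b) (hn : 0 < p ^ b - 1)
    (H : ∀ r : ℕ, r.Prime → (r ∣ p ^ b - 1 ↔ r ∣ p ^ a + 1)) :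
    (∃ k, p ^ a = 2 ^ k + 1 ∧ p ^ b - 1 = (p ^ a) ^ 2 - 1) ∨
    (∃ k, p ^ b - 1 = 2 ^ k + 1 ∧ p ^ a = (p ^ b - 1) ^ 2 - 1) := by
  have hpa : 2 ≤ p ^ a := hp.two_le.trans (Nat.le_self_pow (by omega) p)
  by_cases hI : ∀ r : ℕ, r.Prime → r ∣ p ^ a + 1 → r = 2
  · -- everything is a power of two
    have hI' : ∀ r : ℕ, r.Prime → r ∣ p ^ b - 1 → r = 2 := fun r hr h => hI r hr ((H r hr).1 h)
    obtain ⟨s, hs⟩ := only2 _ (by omega) hI
    have hs0 : s ≠ 0 := by rintro rfl; rw [pow_zero] at hs; omega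
    have hpo : Odd p := by
      by_contra hne
      have he : Even (p ^ a) := (Nat.not_odd_iff_even.1 hne).pow_of_ne_zero (by omega)
      have h2 : Even (2 ^ s) := (even_two).pow_of_ne_zero hs0
      rw [← hs] at h2
      exact (Nat.not_even_iff_odd.2 he.add_one) h2
    have hp3 : 3 ≤ p := by
      have := hp.two_le
      rcases hpo with ⟨w, hw⟩
      omega
    have ha1 : a = 1 := by
      rcases Nat.even_or_odd a with ⟨c, hc⟩ | ⟨c, hc⟩
      · exfalso
        have e : p ^ a = (p ^ c) ^ 2 := by rw [hc, ← two_mul, mul_comm, pow_mul]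
        rw [e] at hs
        exact sq1 _ _ (hp.two_le.trans (Nat.le_self_pow (by omega) p)) hs
      · obtain ⟨G, hG, hGe⟩ := plus_factor p hpo c
        rw [← hc] at hGe
        have hG1 := odd_one_of G _ hG (hGe ▸ Dvd.intro_left _ rfl) hI
        rw [hG1, mul_one] at hGe
        have : p ^ a = p ^ 1 := by rw [pow_one]; omega
        exact Nat.pow_right_injective hp.two_le this
    subst ha1
    rw [pow_one] at *
    rcases Nat.even_or_odd b with ⟨c, hc⟩ | ⟨c, hc⟩
    · have e : p ^ b - 1 = (p ^ c + 1) * (p ^ c - 1) := by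
        rw [hc, pow_add, ← Nat.mul_self_sub_mul_self_eq, mul_one]
      have hc3 : 3 ≤ p ^ c := hp3.trans (Nat.le_self_pow (by omega) p)
      have h3 := pm (p ^ c) hc3 (fun r hr h => hI' r hr (e ▸ h.mul_left _))
        (fun r hr h => hI' r hr (e ▸ h.mul_right _))
      have hcp : p ≤ p ^ c := Nat.le_self_pow (by omega) p
      have hp' : p = 3 := by omega
      left
      refine ⟨1, by omega, ?_⟩
      rw [e, h3, hp']
      norm_num
    · obtain ⟨w, hw⟩ := hpo
      obtain ⟨G, hG, hGe⟩ := minus_factor w c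
      rw [← hw, ← hc] at hGe
      have hG1 := odd_one_of G (p ^ b - 1) hG (by rw [hGe]; simp) hI'
      rw [hG1, mul_one] at hGe
      have hpb : p ^ b = p := by omega
      have h3 := pm p hp3 (fun r hr h => hI' r hr (by rw [hpb]; exact h)) hI
      right
      refine ⟨0, ?_, ?_⟩
      · rw [hpb, h3]; norm_num
      · rw [hpb, h3]; norm_num
  · simp only [not_forall] at hI
    obtain ⟨r0, hr0, hr0d, hr02⟩ := hI
    have hmul : ∀ x : ℕ, (x + 1) * (x - 1) = x ^ 2 - 1 := by
      intro x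
      rw [sq, ← Nat.mul_self_sub_mul_self_eq, mul_one]
    have hD : ∀ r : ℕ, r.Prime → r ∣ p ^ b - 1 → r ∣ p ^ (Nat.gcd b (2 * a)) - 1 := by
      intro r hr h
      rw [← Nat.pow_sub_one_gcd_pow_sub_one]
      refine Nat.dvd_gcd h ?_
      have : p ^ (2 * a) - 1 = (p ^ a + 1) * (p ^ a - 1) := by
        rw [hmul, mul_comm, pow_mul]
      rw [this]
      exact ((H r hr).1 h).mul_right _
    have two_of : ∀ x r : ℕ, r.Prime → 1 ≤ x → r ∣ x - 1 → r ∣ x + 1 → r = 2 := by
      intro x r hr hx h1 h2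
      have : r ∣ (x + 1) - (x - 1) := Nat.dvd_sub h2 h1
      have e : (x + 1) - (x - 1) = 2 := by omega
      rw [e] at this
      exact (Nat.prime_dvd_prime_iff_eq hr Nat.prime_two).1 this
    set d := Nat.gcd b (2 * a) with hd
    have hdb : d ∣ b := Nat.gcd_dvd_left _ _
    have hda : d ∣ 2 * a := Nat.gcd_dvd_right _ _
    have hd0 : 0 < d := Nat.gcd_pos_of_pos_left _ (by omega)
    have hnda : ¬ d ∣ a := by
      intro h
      have h1 : r0 ∣ p ^ d - 1 := hD r0 hr0 ((H r0 hr0).2 hr0d)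
      have h2 : p ^ d - 1 ∣ p ^ a - 1 := Nat.pow_sub_one_dvd_pow_sub_one p h
      exact hr02 (two_of (p ^ a) r0 hr0 (by omega) (h1.trans h2) hr0d)
    obtain ⟨f, hf⟩ := hda
    have hfo : Odd f := by
      by_contra hne
      obtain ⟨g, hg⟩ := Nat.not_odd_iff_even.1 hne
      apply hnda
      refine ⟨g, ?_⟩
      have : 2 * a = 2 * (d * g) := by rw [hf, hg]; ring
      omega
    have hde : Even d := by
      by_contra hne
      have : Odd (d * f) := (Nat.not_even_iff_odd.1 hne).mul hfo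
      rw [← hf] at this
      exact (Nat.not_even_iff_odd.2 this) (even_two_mul a)
    obtain ⟨d', hd'⟩ := hde
    have hd'2 : d = 2 * d' := by omega
    have hd'0 : 0 < d' := by omega
    have haf : a = d' * f := by
      have : 2 * a = 2 * (d' * f) := by rw [hf, hd'2]; ring
      omega
    obtain ⟨e, he⟩ := hdb
    have hz2 : 2 ≤ p ^ d' := hp.two_le.trans (Nat.le_self_pow (by omega) p)
    have hy : p ^ d = (p ^ d') ^ 2 := by rw [hd'2, mul_comm, pow_mul]
    have hy2 : 2 ≤ p ^ d := hp.two_le.trans (Nat.le_self_pow (by omega) p)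
    have he0 : e ≠ 0 := by rintro rfl; omega
    have heo : Odd e := by
      by_contra hne
      obtain ⟨g, hg⟩ := Nat.not_odd_iff_even.1 hne
      have hdiv : (p ^ d + 1) * (p ^ d - 1) ∣ p ^ b - 1 := by
        rw [hmul, ← pow_mul]
        refine Nat.pow_sub_one_dvd_pow_sub_one p ⟨g, ?_⟩
        rw [he, hg]; ring
      obtain ⟨s, hs⟩ := only2 (p ^ d + 1) (by omega) (by
        intro r hr h
        exact two_of (p ^ d) r hr (by omega) (hD r hr ((h.mul_right _).trans hdiv)) h)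
      rw [hy] at hs
      exact sq1 _ _ hz2 hs
    have he1 : e = 1 := by
      by_contra hne
      obtain ⟨q, hq, hqe⟩ := Nat.exists_prime_and_dvd hne
      have hq2 : q ≠ 2 := by
        rintro rfl
        exact (Nat.not_even_iff_odd.2 heo) (even_iff_two_dvd.2 hqe)
      refine no_minus (p ^ d) q hy2 hq hq2 fun r hr h => hD r hr (h.trans ?_)
      rw [← pow_mul]
      refine Nat.pow_sub_one_dvd_pow_sub_one p ?_
      rw [he]
      exact Nat.mul_dvd_mul_left _ hqe
    rw [he1, mul_one] at he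
    have hpb : p ^ b = (p ^ d') ^ 2 := by rw [he, hy]
    have hpaf : p ^ a = (p ^ d') ^ f := by rw [haf, pow_mul]
    generalize hzdef : p ^ d' = z at *
    have hz1 : ∀ r : ℕ, r.Prime → r ∣ z - 1 → r = 2 := by
      intro r hr h
      have h1 : r ∣ p ^ b - 1 := by rw [hpb, ← hmul]; exact h.mul_left _
      have h2 := (H r hr).1 h1
      rw [hpaf] at h2
      have h3 : z - 1 ∣ z ^ f - 1 := by
        have := Nat.sub_dvd_pow_sub_pow z 1 f
        rwa [one_pow] at this
      exact two_of (z ^ f) r hr (Nat.one_le_pow _ _ (by omega)) (h.trans h3) h2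
    obtain ⟨k, hk⟩ := only2 (z - 1) (by omega) hz1
    by_cases hf1 : f = 1
    · left
      refine ⟨k, ?_, ?_⟩
      · rw [hpaf, hf1, pow_one]; omega
      · rw [hpb, hpaf, hf1, pow_one]
    · have hq' : ∀ q : ℕ, q.Prime → q ∣ f → z = 2 ∧ q = 3 := by
        intro q hq hqf
        have hq2 : q ≠ 2 := by
          rintro rfl
          exact (Nat.not_even_iff_odd.2 hfo) (even_iff_two_dvd.2 hqf)
        refine plus_case z q (by omega) hq hq2 fun r hr h => ?_
        obtain ⟨g, hg⟩ := hqf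
        have hgo : Odd g := by rw [hg] at hfo; exact (Nat.odd_mul.1 hfo).2
        have h1 : z ^ q + 1 ∣ z ^ f + 1 := by
          have := Odd.nat_add_dvd_pow_add_pow (z ^ q) 1 hgo
          rwa [one_pow, ← pow_mul, ← hg] at this
        have h2 : r ∣ p ^ b - 1 := (H r hr).2 (by rw [hpaf]; exact h.trans h1)
        rw [hpb, ← hmul] at h2
        rcases (Nat.Prime.dvd_mul hr).1 h2 with h3 | h3
        · exact h3
        · have := hz1 r hr h3
          subst this
          omega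
      obtain ⟨q, hq, hqf⟩ := Nat.exists_prime_and_dvd hf1
      obtain ⟨hz, hq3⟩ := hq' q hq hqf
      subst hq3
      obtain ⟨g, hg⟩ := hqf
      by_cases hg1 : g = 1
      · right
        refine ⟨1, ?_, ?_⟩
        · rw [hpb, hz]; norm_num
        · rw [hpb, hpaf, hz, hg, hg1]; norm_num
      · exfalso
        obtain ⟨q', hq'p, hq'g⟩ := Nat.exists_prime_and_dvd hg1
        obtain ⟨-, hq'3⟩ := hq' q' hq'p (hg ▸ hq'g.mul_left 3)
        subst hq'3
        obtain ⟨g', hg'⟩ := hq'g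
        have hgo : Odd g' := by
          rw [hg, hg'] at hfo
          exact (Nat.odd_mul.1 (Nat.odd_mul.1 hfo).2).2
        have h1 : 2 ^ 9 + 1 ∣ 2 ^ f + 1 := by
          have := Odd.nat_add_dvd_pow_add_pow (2 ^ 9) 1 hgo
          rw [one_pow, ← pow_mul] at this
          rw [hg, hg']
          have e9 : 3 * (3 * g') = 9 * g' := by ring
          rw [e9]
          exact this
        have h19 : 19 ∣ p ^ b - 1 := (H 19 (by norm_num)).2 (by
          rw [hpaf, hz]
          exact (by norm_num : 19 ∣ 2 ^ 9 + 1).trans h1)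
        rw [hpb, hz] at h19
        norm_num at h19

theorem half (m n : ℕ) (hm : 0 < m) (hn : 0 < n) (h1 : m.primeFactors = (n + 1).primeFactors)
    (h2 : n.primeFactors = (m + 1).primeFactors) (hpp : IsPrimePow m) :
    (∃ k, m = 2 ^ k + 1 ∧ n = m ^ 2 - 1) ∨ (∃ k, n = 2 ^ k + 1 ∧ m = n ^ 2 - 1) := by
  obtain ⟨p, a, hp, ha, rfl⟩ := (isPrimePow_nat_iff m).1 hpp
  rw [Nat.primeFactors_prime_pow (by omega) hp] at h1
  obtain ⟨b, hb⟩ : ∃ b, n + 1 = p ^ b := ⟨_, Nat.eq_prime_pow_of_unique_prime_dvd (by omega)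
    (fun {d} hd hdn => by
      have : d ∈ (n + 1).primeFactors := Nat.mem_primeFactors.2 ⟨hd, hdn, by omega⟩
      rw [← h1] at this
      exact Finset.mem_singleton.1 this)⟩
  have hb0 : b ≠ 0 := by rintro rfl; rw [pow_zero] at hb; omega
  have hnb : n = p ^ b - 1 := by omega
  subst hnb
  exact core p a b hp ha (by omega) hn (by
    intro r hr
    have e1 : r ∣ p ^ b - 1 ↔ r ∈ (p ^ b - 1).primeFactors := by
      rw [Nat.mem_primeFactors]
      exact ⟨fun h => ⟨hr, h, by omega⟩, fun h => h.2.1⟩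
    have e2 : r ∣ p ^ a + 1 ↔ r ∈ (p ^ a + 1).primeFactors := by
      rw [Nat.mem_primeFactors]
      exact ⟨fun h => ⟨hr, h, by omega⟩, fun h => h.2.1⟩
    rw [e1, e2, h2])

/-- If `(m, n)` satisfies `rad m = rad (n + 1)` and `rad n = rad (m + 1)` and one of `m`, `n`
is a prime power, then the pair is `(2 ^ k + 1, (2 ^ k + 1) ^ 2 - 1)` up to order. -/
theorem result (m n : ℕ) (hm : 0 < m) (hn : 0 < n)
    (h1 : m.primeFactors = (n + 1).primeFactors) (h2 : n.primeFactors = (m + 1).primeFactors)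
    (hpp : IsPrimePow m ∨ IsPrimePow n) :
    (∃ k, m = 2 ^ k + 1 ∧ n = m ^ 2 - 1) ∨ (∃ k, n = 2 ^ k + 1 ∧ m = n ^ 2 - 1) := by
  rcases hpp with h | h
  · exact half m n hm hn h1 h2 h
  · exact (half n m hn hm h2 h1 h).symm

end Pool.Agent.Results.MP_31e8d2_nt.PrimePower
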